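import Pool.Agent.Q24.PG.CycMain

namespace Pool.Agent.Results.MP_305fdd_al.FreeSplittingsCuspedTriangle

open Pool.Agent.Q24.PG

/-- Let `Γ = C_m * C_n` where each of `m`, `n` is a prime number or `0`, `C_0` being the infinite
cyclic group (so `Γ` is `PSL(2,ℤ)` for `(m, n) = (2, 3)` and the free group of rank two for
`(0, 0)`). Every finitely generated residually finite group with the same finite quotients as `Γ`
that is a free product of two nontrivial groups is isomorphic to `Γ`. -/
theorem result (m n : ℕ) (hm : m = 0 ∨ m.Prime) (hn : n = 0 ∨ n.Prime) (Λ : Type) [Group Λ]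
    (hfg : Group.FG Λ) (hrf : ResFin Λ)
    (hq : SameFQ Λ (Monoid.Coprod (Multiplicative (ZMod m)) (Multiplicative (ZMod n))))
    (A B : Type) [Group A] [Group B] [Nontrivial A] [Nontrivial B]
    (e : Λ ≃* Monoid.Coprod A B) :
    Nonempty (Λ ≃* Monoid.Coprod (Multiplicative (ZMod m)) (Multiplicative (ZMod n))) := by
  obtain ⟨hA, hB, hA', hB'⟩ := factors hrf e
  have hA1 : ¬ ∀ a : A, a = 1 := by
    intro h
    obtain ⟨x, hx⟩ := exists_ne (1 : A)
    exact hx (h x)
  have hB1 : ¬ ∀ b : B, b = 1 := by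
    intro h
    obtain ⟨x, hx⟩ := exists_ne (1 : B)
    exact hx (h x)
  obtain ⟨F, hF⟩ := cyc_split hm hn hA' hB' (hq.congr_left e) hA1 hB1
  have hb := hopf hq hrf (F.comp e.toMonoidHom) (hF.comp e.surjective)
  exact ⟨MulEquiv.ofBijective _ hb⟩

end Pool.Agent.Results.MP_305fdd_al.FreeSplittingsCuspedTriangle
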