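import Pool.Agent.Q3.PGS.Free

namespace Pool.Agent.Results.MP_305fdd_al.FreeSplittingsFreeGroup

open Pool.Agent.Q24.PG

/-- Let `Λ` be a finitely generated residually finite group with the same finite quotients as the
free group of rank `n`, and let `Λ` be the free product of `A` and `B`. There are ranks `a`, `b`
with sum `n` such that `A` and `B` have as many homomorphisms to each finite solvable group as the
free groups of ranks `a` and `b`; a factor of rank `0` is trivial; a factor of rank `1` is infinite
cyclic, and then the other factor has the same finite quotients as the free group of its rank. -/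
theorem result (n : ℕ) (Λ : Type) [Group Λ] (hfg : Group.FG Λ) (hrf : ResFin Λ)
    (hq : SameFQ Λ (FreeGroup (Fin n))) (A B : Type) [Group A] [Group B]
    (e : Λ ≃* Monoid.Coprod A B) :
    ∃ a b : ℕ, a + b = n ∧
      (∀ (Q : Type) [Group Q] [Finite Q], Group.IsSolvable Q →
        Nat.card (A →* Q) = Nat.card Q ^ a ∧ Nat.card (B →* Q) = Nat.card Q ^ b) ∧
      (a = 0 → ∀ x : A, x = 1) ∧ (b = 0 → ∀ x : B, x = 1) ∧
      (a = 1 → Nonempty (A ≃* Multiplicative ℤ) ∧ SameFQ B (FreeGroup (Fin b))) ∧
      (b = 1 → Nonempty (B ≃* Multiplicative ℤ) ∧ SameFQ A (FreeGroup (Fin a))) :=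
  Pool.Agent.Q3.PGS.free_splitting hfg hrf hq e

end Pool.Agent.Results.MP_305fdd_al.FreeSplittingsFreeGroup
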