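import Pool.Agent.Q24.PG.CycMain

namespace Pool.Agent.Results.MP_305fdd_al.SurfaceGenusFreelyIndecomposable

open Pool.Agent.Q24.PG

/-- Let `Λ` be a finitely generated residually finite group with the same finite quotients as the
fundamental group of a closed orientable surface. Then `Λ` is not a nontrivial free product. -/
theorem result (g : ℕ) (Λ : Type) [Group Λ] (hfg : Group.FG Λ) (hrf : ResFin Λ)
    (hq : SameFQ Λ (SurfaceGroup g)) (A B : Type) [Group A] [Group B]
    (e : Λ ≃* Monoid.Coprod A B) : Subsingleton A ∨ Subsingleton B := by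
  obtain ⟨hA, hB, hA', hB'⟩ := factors hrf e
  rcases surface_indec hA' hB' (hq.congr_left e) with h | h
  · left
    exact ⟨fun x y => by rw [h x, h y]⟩
  · right
    exact ⟨fun x y => by rw [h x, h y]⟩

end Pool.Agent.Results.MP_305fdd_al.SurfaceGenusFreelyIndecomposable
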